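import Pool.Agent.Lib.MP_688fd0_co.SQ4.Iface
import Pool.Agent.Lib.MP_688fd0_co.SQ3.H23.All
import Pool.Agent.Lib.MP_688fd0_co.SQ3.H23.Final

/-!
FINAL-C: groups of good order in which some element of `A - {1}` centralises an element of order `P` which is centralised
or inverted by all; non-bipartite Cayley graphs of almost all orders.
-/

set_option autoImplicit false

namespace Pool.Agent.Lib.MP_688fd0_co.SQ4

open Pool.Agent.Lib.MP_688fd0_co.OSF Pool.Agent.Lib.MP_688fd0_co.SQ3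
open Subgroup

universe u

/-- The theorem for a prime which is centralised or inverted, if some `a ∈ A`, `a ≠ 1` centralises it. -/
theorem listingN (hM : MainCS) : ∃ c : ℕ, ∀ (G : Type u) [Group G] [Finite G] (P : ℕ), Good c (Nat.card G) P →
    ∀ y : G, orderOf y = P → (∀ g, g * y * g⁻¹ = y ∨ g * y * g⁻¹ = y⁻¹) →
    ∀ A : Set G, (∀ x ∈ A, x⁻¹ ∈ A) → closure A = ⊤ → (∃ a ∈ A, a ≠ 1 ∧ a * y = y * a) → Lst A := by
  obtain ⟨c, hM⟩ := hM
  refine ⟨c, ?_⟩
  intro G _ _ P hn y hy hact A hA hgen hPA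
  obtain ⟨k, m, hD, hP, hPb⟩ := hn
  obtain ⟨H, hH, hf, ⟨e⟩⟩ : ∃ (H : Type) (_ : Group H) (_ : Finite H), Nonempty (G ≃* H) :=
    ⟨Shrink.{0} G, inferInstance, Finite.of_equiv G (equivShrink.{0} G),
      ⟨(Shrink.mulEquiv : Shrink.{0} G ≃* G).symm⟩⟩
  have hcard : Nat.card G = Nat.card H := Nat.card_congr e.toEquiv
  have hkm : Nat.card G = k * m := hD.eq
  have hkm' : Nat.card H = k * m := hcard ▸ hkm
  have hD' : SQ2.CutD (k * m) k m := hkm ▸ hD.toCutD
  have hact' : ∀ g : H, g * e y * g⁻¹ = e y ∨ g * e y * g⁻¹ = (e y)⁻¹ := by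
    intro g
    obtain ⟨g, rfl⟩ := e.surjective g
    rw [← map_mul, ← map_inv, ← map_mul, ← map_inv]
    rcases hact g with h | h
    · exact Or.inl (congrArg e h)
    · exact Or.inr (congrArg e h)
  have hye : orderOf (e y) = P := by rw [← hy]; exact orderOf_injective e.toMonoidHom e.injective y
  obtain ⟨eps, N, C, heps, -, hNC⟩ := gn_exists hkm' hD' (by rw [← hkm]; exact hD.marg) hP (y := e y) hye hact'
  refine SQ2.lst_equiv e A ?_
  refine hM H N C eps k P (e '' A) hNC ?_ ?_ ?_ ?_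
  · rintro _ ⟨x, hx, rfl⟩
    exact ⟨x⁻¹, hA x hx, map_inv e x⟩
  · have h1 := congrArg (Subgroup.map e.toMonoidHom) hgen
    rw [MonoidHom.map_closure, ← MonoidHom.range_eq_map, MonoidHom.range_eq_top.2 e.surjective] at h1
    exact h1
  · obtain ⟨a, ha, ha1, hay⟩ := hPA
    refine ⟨e a, ⟨a, ha, rfl⟩, ?_, fun h => ha1 (e.injective (h.trans (map_one e).symm))⟩
    have h1 := heps (e a)
    have h2 : e a * e y * (e a)⁻¹ = e y := by
      rw [← map_mul, hay, map_mul, mul_inv_cancel_right]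
    rw [h2] at h1
    by_contra hne
    have hm : eps (e a) = -1 := (Int.units_eq_one_or (eps (e a))).resolve_left hne
    rw [hm, Units.val_neg, Units.val_one, zpow_neg_one, eq_inv_iff_mul_eq_one, ← pow_two] at h1
    have h3 : P ∣ 2 := by rw [← hye]; exact orderOf_dvd_of_pow_eq_one h1
    have h4 := P_ne_two hNC.toGNE
    have h5 := Nat.le_of_dvd (by norm_num) h3
    omega
  · rw [← hcard]; exact hPb

/-- The centraliser of an element which is centralised or inverted. -/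
theorem index_centralizer {G : Type*} [Group G] {y : G} (h : ∀ g, g * y * g⁻¹ = y ∨ g * y * g⁻¹ = y⁻¹)
    (hne : ¬ ∀ g, g * y = y * g) : (centralizer {y}).index = 2 := by
  have hmem : ∀ g, g ∈ centralizer {y} ↔ g * y * g⁻¹ = y := by
    intro g
    rw [mem_centralizer_singleton_iff, mul_inv_eq_iff_eq_mul]
  push Not at hne
  obtain ⟨a, ha⟩ := hne
  have ha1 : a * y * a⁻¹ ≠ y := fun h1 => ha (by rwa [mul_inv_eq_iff_eq_mul] at h1)
  have ha2 : a * y * a⁻¹ = y⁻¹ := (h a).resolve_left ha1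
  rw [index_eq_two_iff]
  refine ⟨a, fun b => ?_⟩
  rw [hmem, hmem]
  have h1 : b * a * y * (b * a)⁻¹ = b * (a * y * a⁻¹) * b⁻¹ := by group
  rw [h1, ha2]
  have h2 : b * y⁻¹ * b⁻¹ = (b * y * b⁻¹)⁻¹ := by group
  rw [h2]
  have hyy : y⁻¹ ≠ y := fun h3 => ha1 (ha2.trans h3)
  rcases h b with h3 | h3
  · rw [h3]
    exact Or.inr ⟨rfl, hyy⟩
  · rw [h3, inv_inv]
    exact Or.inl ⟨rfl, hyy⟩

/-- Non-bipartite Cayley graphs of almost all orders. -/
theorem almostN (hM : MainCS) (hN : NiceMS) (hB : BigPS) : AlmostAll fun n =>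
    ∀ (G : Type u) [Group G] [Finite G], Nat.card G = n → ∀ A : Set G, (∀ x ∈ A, x⁻¹ ∈ A) → closure A = ⊤ →
      (∀ H : Subgroup G, H.index = 2 → ∃ a ∈ A, a ≠ 1 ∧ a ∈ H) → Lst A := by
  obtain ⟨c₁, h₁⟩ := listingN.{u} hM
  obtain ⟨c₂, h₂⟩ := listingC.{u} mainAll
  refine (((almost_good hN c₁ (t := 2) (by omega)).and (almost_good hN c₂ (t := 2) (by omega))).and
    (almost_bigP hB le_rfl)).mono ?_
  rintro n hn ⟨⟨h3, h4⟩, P, hP⟩ G _ _ hG A hA hgen hnb
  subst hG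
  have hPp := Nat.prime_of_mem_primeFactors hP.1
  have hPd := Nat.dvd_of_mem_primeFactors hP.1
  have hg := h3 P hPp hPd hP.2.2.2
  obtain ⟨y, hy, hact⟩ := act_of_bigP hg hP
  by_cases hc : ∀ g, g * y = y * g
  · exact h₂ G P (h4 P hPp hPd hP.2.2.2) ⟨y, hy, hc⟩ A hA hgen
  · obtain ⟨a, haA, ha1, haH⟩ := hnb _ (index_centralizer hact hc)
    exact h₁ G P hg y hy hact A hA hgen ⟨a, haA, ha1, mem_centralizer_singleton_iff.1 haH⟩

end Pool.Agent.Lib.MP_688fd0_co.SQ4
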