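import Pool.Agent.Lib.MP_688fd0_co.SQ4.Iface
import Pool.Agent.Lib.MP_688fd0_co.SQ3.H23.All
import Pool.Agent.Lib.MP_688fd0_co.NC.All

/-!
MAIN-C: types A, B (`SQ3.mainAll`), elements of `A` in `N` (THEOREM NC), and the structural theorem for a small generating
subset.
-/

set_option autoImplicit false

namespace Pool.Agent.Lib.MP_688fd0_co.SQ4

open Pool.Agent.Lib.MP_688fd0_co.OSF Pool.Agent.Lib.MP_688fd0_co.SQ2 Pool.Agent.Lib.MP_688fd0_co.SQ3
open Subgroup

/-- Subgroups of a cyclic normal subgroup are normal. -/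
theorem zpowers_normal {G : Type*} [Group G] [Finite G] {N : Subgroup G} (hN : N.Normal) (hc : IsCyclic N) {g : G}
    (hg : g ∈ N) : (zpowers g).Normal := by
  refine ⟨fun x hx y => ?_⟩
  obtain ⟨i, rfl⟩ := mem_zpowers_iff.1 hx
  rw [← conj_zpow]
  refine zpow_mem ?_ i
  obtain ⟨t, ht⟩ := IsCyclic.exists_generator (α := N)
  have ht' : ∀ g ∈ N, ∃ i : ℤ, (t : G) ^ i = g := by
    intro g hg
    obtain ⟨i, hi⟩ := mem_zpowers_iff.1 (ht ⟨g, hg⟩)
    exact ⟨i, congrArg (fun x : N => (x : G)) hi⟩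
  obtain ⟨m, hm⟩ := ht' g hg
  obtain ⟨j, hj⟩ := ht' _ (hN.conj_mem t t.2 y)
  refine mem_zpowers_iff.2 ⟨j, ?_⟩
  rw [← hm, ← conj_zpow, ← hj, ← zpow_mul, ← zpow_mul, mul_comm]

theorem mainC (hS : StrCS) (hG : Smallgen2S.{0}) : MainCS := by
  obtain ⟨c₀, hS⟩ := hS
  obtain ⟨c₁, hM⟩ := mainAll
  refine ⟨3 * c₀ + c₁, ?_⟩
  intro G _ _ N C eps k P A hg hinv hA hrot hPb
  have hPG : P ∣ Nat.card G := hg.dvd.trans (card_subgroup_dvd_card N)
  have hω : 1 ≤ (Nat.card G).primeFactorsList.length :=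
    List.length_pos_of_mem ((Nat.mem_primeFactorsList Nat.card_pos.ne').2 ⟨hg.prime, hPG⟩)
  have hk : 1 ≤ k := by
    rw [← hg.idx]
    exact Nat.pos_of_ne_zero N.index_ne_zero_of_finite
  obtain ⟨y, hy⟩ : ∃ y, y = k + (Nat.card G).primeFactorsList.length := ⟨_, rfl⟩
  rw [← hy] at hPb
  have hy2 : 2 ≤ y := by omega
  by_cases hPA : ∃ a ∈ A, P ∣ orderOf a
  · refine hM G N C eps k P A hg hinv hA hPA ?_
    rw [← hy]
    exact le_trans (Nat.pow_le_pow_right (by norm_num) (Nat.pow_le_pow_right (by omega) (by omega))) hPb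
  by_cases hAN : ∃ g ∈ A, g ∈ N ∧ g ≠ 1
  · obtain ⟨g, hgA, hgN, hg1⟩ := hAN
    refine NC.nc G A hinv hA g hgA ?_ (zpowers_normal hg.Nn hg.Nc hgN)
    intro h2
    have h3 : orderOf g ∣ 2 := orderOf_dvd_of_pow_eq_one (by rw [pow_two, h2])
    have h4 : orderOf g ∣ Nat.card N := by
      have := orderOf_dvd_natCard (⟨g, hgN⟩ : N)
      rwa [Subgroup.orderOf_mk] at this
    rcases (Nat.dvd_prime Nat.prime_two).1 h3 with h5 | h5
    · exact hg1 (orderOf_eq_one_iff.1 h5)
    · rw [h5] at h4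
      have h6 := (hg.big 2 (Nat.mem_primeFactors.2 ⟨Nat.prime_two, h4, Nat.card_pos.ne'⟩)).1
      omega
  push Not at hPA hAN
  obtain ⟨r, hrA, hr, hr1⟩ := hrot
  obtain ⟨l, hl1, hl2, hl3⟩ := hG G A hA
  obtain ⟨A', hA'⟩ : ∃ A' : Set G, A' = {x | x ∈ r :: l} ∪ {x | x⁻¹ ∈ r :: l} := ⟨_, rfl⟩
  have hl1' : ∀ x ∈ r :: l, x ∈ A := by
    intro x hx
    rcases List.mem_cons.1 hx with rfl | hx
    · exact hrA
    · exact hl1 x hx
  have hsub : A' ⊆ A := by
    rw [hA']
    rintro x (hx | hx)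
    · exact hl1' x hx
    · have h1 := hinv _ (hl1' _ hx)
      rwa [inv_inv] at h1
  refine H3.Lst.mono hsub (hS G N C eps k P A' hg ?_ ?_ (fun g h h' => hAN g (hsub h) h') (fun g h => hPA g (hsub h))
    ⟨r, ?_, hr, hr1⟩ ?_)
  · intro x hx
    rw [hA'] at hx ⊢
    rcases hx with hx | hx
    · right
      change x⁻¹⁻¹ ∈ r :: l
      rw [inv_inv]; exact hx
    · left; exact hx
  · rw [eq_top_iff, ← hl3]
    refine closure_mono ?_
    rw [hA']
    exact fun x hx => Or.inl (List.mem_cons_of_mem _ hx)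
  · rw [hA']
    exact Or.inl List.mem_cons_self
  · have hcard : Nat.card A' ≤ 2 * ((Nat.card G).primeFactorsList.length + 1) := by
      classical
      have h1 : A' = (((r :: l).toFinset ∪ (r :: l).toFinset.image (fun x => x⁻¹) : Finset G) : Set G) := by
        rw [hA']
        ext x
        simp only [Set.mem_union, Set.mem_ofPred_eq, Finset.coe_union, Finset.mem_coe,
          List.mem_toFinset, Finset.coe_image, Set.mem_image]
        refine or_congr Iff.rfl ⟨fun h => ⟨x⁻¹, h, inv_inv x⟩, ?_⟩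
        rintro ⟨y, hy, rfl⟩
        rw [inv_inv]; exact hy
      have h2 : Nat.card A' = ((r :: l).toFinset ∪ (r :: l).toFinset.image (fun x => x⁻¹)).card := by
        rw [Nat.card_coe_set_eq, h1, Set.ncard_coe_finset]
      rw [h2]
      refine (Finset.card_union_le _ _).trans ?_
      have h3 := List.toFinset_card_le (r :: l)
      rw [List.length_cons] at h3
      have h4 : ((r :: l).toFinset.image (fun x => x⁻¹)).card ≤ (r :: l).toFinset.card :=
        Finset.card_image_le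
      omega
    refine le_trans (Nat.pow_le_pow_right (by norm_num) ?_) hPb
    have h1 : k + Nat.card A' + (Nat.card G).primeFactorsList.length ≤ 4 * y := by omega
    have h3 : 4 ≤ y ^ 2 := by nlinarith
    have h4 : k + Nat.card A' + (Nat.card G).primeFactorsList.length ≤ y ^ 3 :=
      h1.trans (by
        calc 4 * y ≤ y ^ 2 * y := Nat.mul_le_mul_right y h3
          _ = y ^ 3 := by ring)
    calc (k + Nat.card A' + (Nat.card G).primeFactorsList.length) ^ c₀ ≤ (y ^ 3) ^ c₀ := Nat.pow_le_pow_left h4 c₀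
      _ = y ^ (3 * c₀) := by rw [← pow_mul]
      _ ≤ y ^ (3 * c₀ + c₁) := Nat.pow_le_pow_right (by omega) (by omega)

end Pool.Agent.Lib.MP_688fd0_co.SQ4
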