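import Pool.Agent.Lib.MP_688fd0_co.SQ4.H23.Str
import Pool.Agent.Lib.MP_688fd0_co.SQ4.H23.Main
import Pool.Agent.Lib.MP_688fd0_co.SQ4.H23.Final
import Pool.Agent.Lib.MP_688fd0_co.SQ4.H31.Heart
import Pool.Agent.Lib.MP_688fd0_co.SQ4.H31.HeartC
import Pool.Agent.Lib.MP_688fd0_co.SQ4.H95.Scale
import Pool.Agent.Lib.MP_688fd0_co.SQ4.H2.Kap
import Pool.Agent.Lib.MP_688fd0_co.SQ4.H87.Dstr
import Pool.Agent.Lib.MP_688fd0_co.SQ3.H23.All

/-!
Type C1: the assembly, from WORLD and SMALL.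
-/

set_option autoImplicit false

namespace Pool.Agent.Lib.MP_688fd0_co.SQ4

open Pool.Agent.Lib.MP_688fd0_co.OSF

theorem heartAll (hW : WorldCS) : HeartCS := heartC hW (heartU SQ3.blocks)

theorem mainOfC (hW : WorldCS) (hS : SmallCS) : MainCS :=
  mainC (strC (heartAll hW) scaleC kapC H87.dstr SQ3.H43.factor2 hS hdata) H87.smallgen2

end Pool.Agent.Lib.MP_688fd0_co.SQ4
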