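import Pool.Agent.Lib.MP_688fd0_co.SQ4.Iface
import Pool.Agent.Lib.MP_688fd0_co.SQ3.H23.Str

/-!
STR-C: the structural theorem of type C1, from HEART, SCALE, KAP, DSTR, FACTOR2, SMALL.
-/

set_option autoImplicit false

namespace Pool.Agent.Lib.MP_688fd0_co.SQ4

open Pool.Agent.Lib.MP_688fd0_co.OSF Pool.Agent.Lib.MP_688fd0_co.SQ2 Pool.Agent.Lib.MP_688fd0_co.SQ3
open Subgroup

theorem needC_mono' {ρ r r' k c : ℕ} (h : r ≤ r') : needC ρ r k c ≤ needC ρ r' k c := by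
  unfold needC
  have h1 : 2 ^ r ≤ 2 ^ r' := Nat.pow_le_pow_right (by norm_num) h
  gcongr

/-- The `P'`-part of `N`. -/
theorem exists_N' {G : Type} [Group G] [Finite G] {N C : Subgroup G} {eps : G →* ℤˣ} {k P : ℕ}
    (h : SQ2.H41.GNE N C eps k P) :
    ∃ N' : Subgroup G, N'.Normal ∧ N' ≤ N ∧ Nat.card N' * P = Nat.card N ∧
      ∀ M : Subgroup G, M ≤ N → ¬ P ∣ Nat.card M → M ≤ N' := by
  have hP := h.prime
  have hcyc := h.Nc
  have hNn := h.Nn
  obtain ⟨t, ht⟩ := h.dvd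
  have hN0 : 0 < Nat.card N := Nat.card_pos
  have ht0 : 0 < t := Nat.pos_of_ne_zero fun h0 => by rw [h0, mul_zero] at ht; omega
  have hPt : ¬ P ∣ t := by
    intro h1
    have h2 : P * P ∣ Nat.card N := by rw [ht]; exact Nat.mul_dvd_mul_left P h1
    exact hP.one_lt.ne' (Nat.isUnit_iff.1 (h.Nsq P h2))
  obtain ⟨y, hy⟩ := IsCyclic.exists_generator (α := N)
  have hy' : ∀ g ∈ N, ∃ i : ℤ, (y : G) ^ i = g := by
    intro g hg
    obtain ⟨i, hi⟩ := mem_zpowers_iff.1 (hy ⟨g, hg⟩)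
    exact ⟨i, congrArg (fun x : N => (x : G)) hi⟩
  have hyo : orderOf (y : G) = Nat.card N := by
    rw [Subgroup.orderOf_coe]
    exact orderOf_eq_card_of_forall_mem_zpowers hy
  have hmem : ∀ g ∈ N, g ^ t = 1 → g ∈ zpowers ((y : G) ^ P) := by
    intro g hg hgt
    obtain ⟨i, rfl⟩ := hy' g hg
    rw [← zpow_natCast, ← zpow_mul, ← orderOf_dvd_iff_zpow_eq_one, hyo, ht] at hgt
    have h1 : (P : ℤ) ∣ i := by
      have h2 : ((P * t : ℕ) : ℤ) ∣ i * t := hgt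
      rw [Nat.cast_mul] at h2
      exact Int.dvd_of_mul_dvd_mul_right (by exact_mod_cast ht0.ne') h2
    obtain ⟨j, rfl⟩ := h1
    refine mem_zpowers_iff.2 ⟨j, ?_⟩
    rw [← zpow_natCast, ← zpow_mul]
  refine ⟨zpowers ((y : G) ^ P), ⟨fun g hg x => ?_⟩, ?_, ?_, ?_⟩
  · have hgN : g ∈ N := by
      refine (zpowers_le (H := N)).2 ?_ hg
      exact N.pow_mem y.2 P
    refine hmem _ (hNn.conj_mem g hgN x) ?_
    rw [conj_pow]
    obtain ⟨j, rfl⟩ := mem_zpowers_iff.1 hg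
    have h3 : (((y : G) ^ P) ^ j) ^ t = 1 := by
      rw [← zpow_natCast, ← zpow_mul, mul_comm, zpow_mul, zpow_natCast, ← pow_mul, ← ht, ← hyo, pow_orderOf_eq_one,
        one_zpow]
    rw [h3, mul_one, mul_inv_cancel]
  · rw [zpowers_le]
    exact N.pow_mem y.2 P
  · rw [Nat.card_zpowers, orderOf_pow_of_dvd hP.pos.ne' (by rw [hyo, ht]; exact dvd_mul_right _ _), hyo]
    exact Nat.div_mul_cancel h.dvd
  · intro M hM hPM g hg
    refine hmem g (hM hg) ?_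
    have h1 : orderOf g ∣ Nat.card M := by
      have := orderOf_dvd_natCard (⟨g, hg⟩ : M)
      rwa [Subgroup.orderOf_mk] at this
    have h2 : orderOf g ∣ P * t := by
      rw [← ht]
      have := orderOf_dvd_natCard (⟨g, hM hg⟩ : N)
      rwa [Subgroup.orderOf_mk] at this
    have h3 : (orderOf g).Coprime P :=
      ((Nat.Prime.coprime_iff_not_dvd hP).2 fun h4 => hPM (h4.trans h1)).symm
    exact orderOf_dvd_iff_pow_eq_one.1 (h3.dvd_of_dvd_mul_left h2)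

/-- The image of `N` in `G / N'`. -/
theorem exists_Y' {G : Type} [Group G] [Finite G] {N C N' : Subgroup G} [N'.Normal] {eps : G →* ℤˣ} {k P : ℕ}
    (h : SQ2.H41.GNE N C eps k P) (hN' : N' ≤ N) (hc : Nat.card N' * P = Nat.card N)
    (hmax : ∀ M : Subgroup G, M ≤ N → ¬ P ∣ Nat.card M → M ≤ N') (eps' : G ⧸ N' →* ℤˣ)
    (he : ∀ g, eps' (QuotientGroup.mk' N' g) = eps g) :
    ∃ Y : Subgroup (G ⧸ N'), Y.Normal ∧ Nat.card Y = P ∧
      ∀ y ∈ Y, ∀ g : G ⧸ N', g * y * g⁻¹ = y ^ ((eps' g : ℤˣ) : ℤ) := by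
  have hNn := h.Nn
  refine ⟨N.map (QuotientGroup.mk' N'), hNn.map _ (QuotientGroup.mk'_surjective N'), ?_, ?_⟩
  · have h1 : Nat.card (N.map (QuotientGroup.mk' N')) * Nat.card N' = Nat.card N := by
      have h2 := (N'.subgroupOf N).card_mul_index
      rw [Nat.card_congr (subgroupOfEquivOfLe hN').toEquiv] at h2
      rw [← h2, mul_comm]
      congr 1
      have h3 : (N'.subgroupOf N).index = N'.relIndex N := rfl
      rw [h3, ← Subgroup.relIndex_bot_left (N.map (QuotientGroup.mk' N'))]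
      have h4 : (⊥ : Subgroup (G ⧸ N')).comap (QuotientGroup.mk' N') = N' := by
        rw [MonoidHom.comap_bot, QuotientGroup.ker_mk']
      have h6 := Subgroup.relIndex_comap (⊥ : Subgroup (G ⧸ N')) (QuotientGroup.mk' N') N
      rw [h4] at h6
      exact h6.symm
    have h5 : 0 < Nat.card N' := Nat.card_pos
    rw [← hc, mul_comm] at h1
    exact Nat.eq_of_mul_eq_mul_left h5 h1
  · rintro _ ⟨y, hy, rfl⟩ g
    obtain ⟨g, rfl⟩ := QuotientGroup.mk'_surjective N' g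
    have h1 := (hmax C h.CN h.ndvd) (h.act y hy g)
    rw [← QuotientGroup.eq_one_iff] at h1
    have h4 : QuotientGroup.mk' N' (g * y * g⁻¹ * (y ^ ((eps g : ℤˣ) : ℤ))⁻¹) = 1 := h1
    rw [map_mul, map_inv, mul_inv_eq_one, map_mul, map_mul, map_inv, map_zpow] at h4
    rw [he]
    exact h4

section

variable {Q Q' : Type} [Group Q] [Group Q'] {B : Lb.{0, 0} Q} {B' : Lb.{0, 0} Q'} (φ : Q →* Q') {a b : B.L}
    {a' b' : B'.L} {eps : Q →* ℤˣ} {eps' : Q' →* ℤˣ} (ha : eps (B.q a) = -1) (hb : eps (B.q b) = -1)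
    (ha' : eps' (B'.q a') = -1) (hb' : eps' (B'.q b') = -1)

theorem upC_map (he : ∀ x, eps' (φ x) = eps x) (hqa : φ (B.q a) = B'.q a') (hqb : φ (B.q b) = B'.q b') (x : Q) :
    φ ((upC B a b eps ha hb).U x) = (upC B' a' b' eps' ha' hb').U (φ x) := by
  show φ (if eps x = 1 then x * B.q a else x * (B.q b)⁻¹) =
    if eps' (φ x) = 1 then φ x * B'.q a' else φ x * (B'.q b')⁻¹
  rw [he]
  split_ifs
  · rw [map_mul, hqa]
  · rw [map_mul, map_inv, hqb]

theorem upC_map_zpow (he : ∀ x, eps' (φ x) = eps x) (hqa : φ (B.q a) = B'.q a') (hqb : φ (B.q b) = B'.q b') (x : Q)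
    (j : ℤ) : φ (((upC B a b eps ha hb).U ^ j) x) = ((upC B' a' b' eps' ha' hb').U ^ j) (φ x) := by
  have h1 := upC_map φ ha hb ha' hb' he hqa hqb
  induction j generalizing x with
  | zero => rfl
  | succ n ih =>
    rw [zpow_add_one, zpow_add_one, Equiv.Perm.mul_apply, Equiv.Perm.mul_apply, ih, h1]
  | pred n ih =>
    rw [zpow_sub_one, zpow_sub_one, Equiv.Perm.mul_apply, Equiv.Perm.mul_apply, ih]
    congr 1
    rw [Equiv.Perm.eq_inv_iff_eq, ← h1]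
    exact congrArg φ (Equiv.apply_symm_apply _ x)

end

theorem strC (hHe : HeartCS) (hSc : ScaleCS) (hK : KapCS) (hD : DstrCS) (hF : SQ3.FactorS) (hS : SmallCS)
    (hH : HdataS.{0}) : StrCS := by
  classical
  obtain ⟨c₁, hSc⟩ := hSc
  refine ⟨2 * c₁, ?_⟩
  intro G _ _ N C eps k P A hg hsym hgen hAN hPA hrot hPb
  have := hg.Cn
  have := hg.Nn
  have hPp := hg.prime
  have hPG : P ∣ Nat.card G := hg.dvd.trans (card_subgroup_dvd_card N)
  have hω : 1 ≤ (Nat.card G).primeFactorsList.length :=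
    List.length_pos_of_mem ((Nat.mem_primeFactorsList Nat.card_pos.ne').2 ⟨hPp, hPG⟩)
  have hk : 1 ≤ k := by
    rw [← hg.idx]
    exact Nat.pos_of_ne_zero N.index_ne_zero_of_finite
  have hPk : ¬ P ∣ k := fun h =>
    hPp.one_lt.ne' (Nat.eq_one_of_dvd_coprimes hg.cop hg.dvd h)
  have hNodd : Odd (Nat.card N) := by
    rw [← Nat.not_even_iff_odd]
    intro he
    have h1 := (hg.big 2 (Nat.mem_primeFactors.2 ⟨Nat.prime_two, even_iff_two_dvd.1 he, Nat.card_pos.ne'⟩)).1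
    omega
  -- the quotient by the `P'`-part of `N`
  obtain ⟨N', hN'n, hN'N, hN'c, hmax⟩ := exists_N' hg.toGNE
  obtain ⟨eps₀, heps₀⟩ : ∃ e : G ⧸ N' →* ℤˣ, ∀ g, e (QuotientGroup.mk' N' g) = eps g :=
    ⟨QuotientGroup.lift N' eps fun c hc => hg.eN c (hN'N hc), fun g => rfl⟩
  obtain ⟨Y, hYn, hYc, hYa⟩ := exists_Y' hg.toGNE hN'N hN'c hmax eps₀ heps₀
  have hPsq : ¬ P ^ 2 ∣ Nat.card (G ⧸ N') := fun h =>
    hg.sq (h.trans ⟨_, Subgroup.card_eq_card_quotient_mul_card_subgroup N'⟩)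
  have hA1 : ∀ g ∈ A, g ∈ N' → g = 1 := fun g h h' => hAN g h (hN'N h')
  set B₀ := qLb N' A hsym hA1 with hB₀
  have hfinL : Finite B₀.L := inferInstanceAs (Finite {g : G // g ∈ A ∧ g ≠ 1})
  have hcard : Nat.card B₀.L ≤ Nat.card A := by
    refine Nat.card_le_card_of_injective (fun g : B₀.L => (⟨g.1, g.2.1⟩ : A)) ?_
    intro g h hgh
    exact Subtype.ext (congrArg (fun t : A => (t : G)) hgh)
  have hr : ∀ M : Subgroup G, (Nat.card M).primeFactors.card ≤ (Nat.card G).primeFactorsList.length := fun M =>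
    (Finset.card_le_card (Nat.primeFactors_mono (card_subgroup_dvd_card _) Nat.card_pos.ne')).trans
      (List.toFinset_card_le _)
  obtain ⟨x, hx⟩ : ∃ x, x = k + Nat.card A + (Nat.card G).primeFactorsList.length := ⟨_, rfl⟩
  rw [← hx] at hPb
  have hx2 : 2 ≤ x := by omega
  have hPb1 : 2 ^ ((k + Nat.card B₀.L + 2 * (Nat.card N).primeFactors.card + 1) ^ c₁) ≤ P := by
    refine le_trans (Nat.pow_le_pow_right (by norm_num) ?_) hPb
    have h1 : k + Nat.card B₀.L + 2 * (Nat.card N).primeFactors.card + 1 ≤ x ^ 2 := by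
      have h2 : x * 2 ≤ x * x := Nat.mul_le_mul_left x hx2
      have h3 := hr N
      rw [pow_two]
      omega
    calc (k + Nat.card B₀.L + 2 * (Nat.card N).primeFactors.card + 1) ^ c₁ ≤ (x ^ 2) ^ c₁ :=
          Nat.pow_le_pow_left h1 c₁
      _ = x ^ (2 * c₁) := by rw [← pow_mul]
  have hPA' : ∀ s : B₀.L, ¬ P ∣ orderOf (B₀.q s) := by
    intro s h
    exact hPA s.1 s.2.1 (h.trans (orderOf_map_dvd (QuotientGroup.mk' N') s.1))
  obtain ⟨⟨a, haA, ha1⟩, ⟨b, hbA, hb1⟩, ha0, hb0, hPab, hsc⟩ := hSc (G ⧸ N') B₀ k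
    (2 * (Nat.card N).primeFactors.card) P Y eps₀ hfinL (by omega) (qLb_gen N' A hsym hA1 hgen) hPp hPk hYn hYc hYa
    hPsq hPA' hPb1
  have hea : eps a = -1 := by rw [← heps₀]; exact ha0
  have heb : eps b = -1 := by rw [← heps₀]; exact hb0
  -- the subgroup `C₁`
  obtain ⟨hC₁n', hC₁P', hD'⟩ := hD G N C eps k P hg A hsym hgen hAN hPA hrot a haA b hbA hea heb
  obtain ⟨C₁, hC₁⟩ : ∃ C₁, C₁ = cOne N eps A a b := ⟨_, rfl⟩
  have hC₁n : C₁.Normal := by rw [hC₁]; exact hC₁n'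
  have hC₁P : ¬ P ∣ Nat.card C₁ := by rw [hC₁]; exact hC₁P'
  have hC₁N : C₁ ≤ N := by rw [hC₁]; exact inf_le_left
  have hC₁N' : C₁ ≤ N' := hmax C₁ hC₁N hC₁P
  have hcycN := hg.Nc
  have hcyc : IsCyclic C₁ := isCyclic_of_injective (inclusion hC₁N) (inclusion_injective hC₁N)
  have hC₁d : Nat.card C₁ ∣ Nat.card N := card_dvd_of_le hC₁N
  have hcop : (Nat.card C₁).Coprime C₁.index := by
    rw [← relIndex_mul_index hC₁N, hg.idx]
    refine Nat.Coprime.mul_right ?_ (hg.cop.coprime_dvd_left hC₁d)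
    have h1 : Nat.card C₁ * C₁.relIndex N = Nat.card N := by
      have h2 := (C₁.subgroupOf N).card_mul_index
      rwa [Nat.card_congr (subgroupOfEquivOfLe hC₁N).toEquiv] at h2
    have hsq := hg.Nsq
    rw [← h1] at hsq
    exact Nat.coprime_of_squarefree_mul hsq
  have hA1' : ∀ g ∈ A, g ∈ C₁ → g = 1 := fun g h h' => hAN g h (hC₁N h')
  obtain ⟨D, z, u, eps', heps', huN, huz, hyp'⟩ := hD' C₁ hC₁n hC₁ hA1'
  set B := qLb C₁ A hsym hA1' with hB
  obtain ⟨a', ha'⟩ : ∃ a' : B.L, a' = (⟨a, haA, ha1⟩ : {g : G // g ∈ A ∧ g ≠ 1}) := ⟨_, rfl⟩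
  obtain ⟨b', hb'⟩ : ∃ b' : B.L, b' = (⟨b, hbA, hb1⟩ : {g : G // g ∈ A ∧ g ≠ 1}) := ⟨_, rfl⟩
  have hqa : B.q a' = QuotientGroup.mk' C₁ a := by rw [ha']; rfl
  have hqb : B.q b' = QuotientGroup.mk' C₁ b := by rw [hb']; rfl
  have H : HypC B a' b' eps' D z k := hyp' a' b' (by rw [ha']) (by rw [hb'])
  let φ : G ⧸ C₁ →* G ⧸ N' := QuotientGroup.map C₁ N' (MonoidHom.id G) hC₁N'
  have hφ : ∀ g : G, φ (g : G ⧸ C₁) = (g : G ⧸ N') := fun g => rfl
  have hφs : Function.Surjective φ := by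
    intro y
    obtain ⟨g, rfl⟩ := QuotientGroup.mk_surjective y
    exact ⟨(g : G ⧸ C₁), rfl⟩
  have hφe : ∀ x, eps₀ (φ x) = eps' x := by
    intro x
    obtain ⟨g, rfl⟩ := QuotientGroup.mk'_surjective C₁ x
    rw [heps']
    exact heps₀ g
  have hqq : ∀ b : B.L, φ (B.q b) = B₀.q b := fun b => rfl
  have hUj : ∀ (x : G ⧸ C₁) (j : ℤ), φ ((H.up.U ^ j) x) =
      ((upC B₀ ⟨a, haA, ha1⟩ ⟨b, hbA, hb1⟩ eps₀ ha0 hb0).U ^ j) (φ x) := by
    intro x j
    exact upC_map_zpow φ H.ea H.eb ha0 hb0 hφe (by rw [ha']; rfl) (by rw [hb']; rfl) x j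
  have hall : ∀ E : Subgroup (G ⧸ C₁), Nat.card E ∣ k → E.Normal → E ≤ eps'.ker → ∃ c W : ℕ,
      SinkU H.up E W ∧ SepU H.up E c W ∧ LevU H.up E W ∧
        needC (Nat.card B.L) (2 * (Nat.card C₁).primeFactors.card) k c ≤ W ∧
        (Nat.card B.L + 2) ^ 40 * k ^ 20 * W ^ 2 < P := by
    intro E hEk hEn hEe
    have hD₀n : (E.map φ).Normal := hEn.map φ hφs
    have hD₀k : Nat.card (E.map φ) ∣ k := (card_map_dvd E φ).trans hEk
    have hD₀e : E.map φ ≤ eps₀.ker := by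
      rintro _ ⟨y, hy, rfl⟩
      rw [MonoidHom.mem_ker, hφe]
      exact hEe hy
    obtain ⟨c, W, hSi, hSe, hLe, hW1, hW2⟩ := hsc (E.map φ) hD₀k hD₀n hD₀e
    refine ⟨c, W, fun x s j hj1 hj2 hmem => ?_, fun x l j hl hj1 hj2 hmem => ?_, fun x j hj1 hj2 hmem => ?_, ?_, hW2⟩
    · refine hSi (φ x) s j hj1 hj2 ?_
      have h9 := mem_map_of_mem φ hmem
      rw [map_mul, map_inv, hUj, map_mul, hqq] at h9
      exact h9
    · refine hSe (φ x) l j hl hj1 hj2 ?_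
      have h9 := mem_map_of_mem φ hmem
      rw [map_mul, map_inv, hUj] at h9
      have h10 : φ (B.fin x l) = B₀.fin (φ x) l := qLb_fin C₁ A hsym hA1' N' hA1 φ hφ l x
      rw [h10] at h9
      exact h9
    · refine hLe (φ x) j hj1 hj2 ?_
      have h9 := mem_map_of_mem φ hmem
      rw [map_mul, map_inv, hUj] at h9
      exact h9
    · exact (needC_mono' (Nat.mul_le_mul_left 2
        (Finset.card_le_card (Nat.primeFactors_mono hC₁d Nat.card_pos.ne')))).trans hW1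
  have hoz' : P ∣ orderOf (z ^ k) := by
    have h0 := H.fin
    obtain ⟨w, hw⟩ : ∃ w, w = B.q a' * (B.q b')⁻¹ := ⟨_, rfl⟩
    have hmem := H.mem
    rw [← hw] at hmem
    have h9 : P ∣ orderOf w := by
      refine hPab.trans ?_
      have h10 : φ w = B₀.q ⟨a, haA, ha1⟩ * (B₀.q ⟨b, hbA, hb1⟩)⁻¹ := by
        rw [hw, map_mul, map_inv, hqq, hqq, ha', hb']
      rw [← h10]
      exact orderOf_map_dvd φ w
    have hzk : z ^ k = w ^ k := by
      have h10 : eps' (z⁻¹ * w) = 1 := H.leD hmem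
      have h11 : (z⁻¹ * w) ^ k = 1 := by
        have h12 : orderOf (z⁻¹ * w) ∣ Nat.card D := by
          have := orderOf_dvd_natCard (⟨z⁻¹ * w, hmem⟩ : D)
          rwa [Subgroup.orderOf_mk] at this
        exact orderOf_dvd_iff_pow_eq_one.1 (h12.trans H.card)
      have h12 : Commute z (z⁻¹ * w) := (H.cen _ h10).symm
      have h13 : w = z * (z⁻¹ * w) := by rw [mul_inv_cancel_left]
      rw [h13, h12.mul_pow, h11, mul_one]
    rw [hzk]
    have h12 : w ^ (k * orderOf (w ^ k)) = 1 := by rw [pow_mul, pow_orderOf_eq_one]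
    exact (hPp.dvd_mul.1 (h9.trans (orderOf_dvd_of_pow_eq_one h12))).resolve_left hPk
  rcases le_or_gt 3 ((zpowers (B.q a' * (B.q b')⁻¹)).relIndex eps'.ker) with hidx | hidx
  swap
  · refine hS G N C eps k P A hsym C₁ hC₁n hA1' a' b' eps' D z u H hg hgen hAN hPA ?_ heps' huN huz (Nat.lt_succ_iff.1 hidx)
      (hoz'.trans (orderOf_pow_dvd k)) hall
    rw [ha', hb', hC₁]
  -- the heart
  have := H.fin
  have hoz : P ≤ orderOf (z ^ k) := Nat.le_of_dvd (orderOf_pos _) hoz'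
  obtain ⟨c, W, hSi', hSe', hLe', hWn, hW2⟩ := hall D H.card H.nD H.leD
  obtain ⟨s, zz, chi, ν, h1, h2, h3, h4, h5, h6, h7, h8⟩ := hH G C₁ hC₁n hcyc hcop
  have hm0 : 0 < Nat.card C₁ := Nat.card_pos
  have : NeZero (Nat.card C₁) := ⟨hm0.ne'⟩
  have : Fintype (G ⧸ C₁) := Fintype.ofFinite _
  let V : Vd B (ZMod (Nat.card C₁)) :=
    { chi := chi
      n := fun g => ν g.1
      n_inv := fun g => h6 g.1 }
  have hC₁odd : Odd (Nat.card C₁) := Odd.of_dvd_nat hNodd hC₁d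
  have hkap : ∀ p, ∀ hp : p ∈ (Nat.card C₁).primeFactors,
      KapV (V.map (red (Nat.dvd_of_mem_primeFactors hp))) a' b' eps' := by
    intro p hp
    refine hK G N C eps k P hg A hsym hgen C₁ hC₁n hA1' a' b' ?_ ?_ ?_ s zz chi ν h1 h2 h3 h4 h5 eps' heps' V rfl
      (fun g => rfl) p hp
    · rw [ha', hb', hC₁]
    · rw [ha']; exact hea
    · rw [hb']; exact heb
  have hzchi : V.chi z = 1 := by
    show chi z = 1
    rw [← huz]
    refine h8 u fun c hc => ?_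
    exact SQ2.H41.comm_of_cyclic N hg.Nc u huN c (hC₁N hc)
  have hmarg : ∀ p ∈ (Nat.card C₁).primeFactors, 4 * k < p ∧ 2 * (Nat.card C₁).primeFactors.card < p := by
    intro p hp
    have hpN := Nat.primeFactors_mono hC₁d Nat.card_pos.ne' hp
    refine ⟨(hg.big p hpN).1, lt_of_le_of_lt ?_ (hg.marg p hpN)⟩
    have h9 := hr C₁
    obtain ⟨y, hy⟩ : ∃ y, y = (Nat.card G).primeFactorsList.length + 2 := ⟨_, rfl⟩
    rw [← hy]
    have h10 : 2 * y ≤ y ^ 10 := by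
      have h11 : 2 ≤ y := by omega
      calc 2 * y ≤ y * y := Nat.mul_le_mul_right y h11
        _ = y ^ 2 := by ring
        _ ≤ y ^ 10 := Nat.pow_le_pow_right (by omega) (by norm_num)
    omega
  obtain ⟨T, hT⟩ := hHe (G ⧸ C₁) B a' b' eps' D z k H hidx c W hSi' hSe' hLe' (Nat.card C₁) V
    hC₁odd hzchi hmarg hkap hWn (lt_of_lt_of_le hW2 hoz)
  have hz1 : QuotientGroup.mk' C₁ zz = 1 := by
    rw [QuotientGroup.mk'_apply, QuotientGroup.eq_one_iff, ← h2]; exact mem_zpowers zz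
  exact hF G (G ⧸ C₁) (Nat.card C₁) (QuotientGroup.mk' C₁) s zz chi ν hm0 h1 hz1 h3
    (fun g hg => by rw [h2]; exact (QuotientGroup.eq_one_iff g).1 hg) h4 h5 A (fun x => (T.lab x).1) T.cls hgen
    (fun x => (T.lab x).2.1) T.bij T.step T.trans hT

end Pool.Agent.Lib.MP_688fd0_co.SQ4
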