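import Pool.Agent.Lib.MP_688fd0_co.SQ4.H23.Final
import Pool.Agent.Lib.MP_688fd0_co.SQ6.H74.Part

/-!
FINAL-C2: the reduction to the structure `GN` as one lemma, and the theorem for two heights (`TwoHS`) for groups of good
order; two generated Cayley graphs.
-/

set_option autoImplicit false

namespace Pool.Agent.Lib.MP_688fd0_co.SQ4

open Pool.Agent.Lib.MP_688fd0_co.OSF Pool.Agent.Lib.MP_688fd0_co.SQ3
open Subgroup

universe u

/-- The structure `GN` for a group of good order. -/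
theorem reduce {c : ℕ} {G : Type u} [Group G] [Finite G] {P : ℕ} (hn : Good c (Nat.card G) P)
    {y : G} (hy : orderOf y = P) (hact : ∀ g, g * y * g⁻¹ = y ∨ g * y * g⁻¹ = y⁻¹) :
    ∃ (H : Type) (_ : Group H) (_ : Finite H) (e : G ≃* H) (N C : Subgroup H) (eps : H →* ℤˣ) (k : ℕ),
      GN N C eps k P ∧ (∀ g : G, eps (e g) = 1 ↔ g * y = y * g) ∧
      2 ^ ((k + (Nat.card H).primeFactorsList.length) ^ c) ≤ P ∧ ∃ m, CutE (Nat.card H) k m := by
  obtain ⟨k, m, hD, hP, hPb⟩ := hn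
  obtain ⟨H, hH, hf, ⟨e⟩⟩ : ∃ (H : Type) (_ : Group H) (_ : Finite H), Nonempty (G ≃* H) :=
    ⟨Shrink.{0} G, inferInstance, Finite.of_equiv G (equivShrink.{0} G),
      ⟨(Shrink.mulEquiv : Shrink.{0} G ≃* G).symm⟩⟩
  have hcard : Nat.card G = Nat.card H := Nat.card_congr e.toEquiv
  have hkm : Nat.card G = k * m := hD.eq
  have hkm' : Nat.card H = k * m := hcard ▸ hkm
  have hD' : SQ2.CutD (k * m) k m := hkm ▸ hD.toCutD
  have hact' : ∀ g : H, g * e y * g⁻¹ = e y ∨ g * e y * g⁻¹ = (e y)⁻¹ := by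
    intro g
    obtain ⟨g, rfl⟩ := e.surjective g
    rw [← map_mul, ← map_inv, ← map_mul, ← map_inv]
    rcases hact g with h | h
    · exact Or.inl (congrArg e h)
    · exact Or.inr (congrArg e h)
  have hye : orderOf (e y) = P := by rw [← hy]; exact orderOf_injective e.toMonoidHom e.injective y
  obtain ⟨eps, N, C, heps, -, hNC⟩ := gn_exists hkm' hD' (by rw [← hkm]; exact hD.marg) hP (y := e y) hye hact'
  refine ⟨H, hH, hf, e, N, C, eps, k, hNC, fun g => ⟨fun h => ?_, fun h => ?_⟩, by rw [← hcard]; exact hPb, m,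
    hcard ▸ hD⟩
  · have h1 := heps (e g)
    rw [h, Units.val_one, zpow_one, mul_inv_eq_iff_eq_mul, ← map_mul, ← map_mul] at h1
    exact e.injective h1
  · have h1 := heps (e g)
    have h2 : e g * e y * (e g)⁻¹ = e y := by
      rw [← map_mul, h, map_mul, mul_inv_cancel_right]
    rw [h2] at h1
    by_contra hne
    have hm : eps (e g) = -1 := (Int.units_eq_one_or (eps (e g))).resolve_left hne
    rw [hm, Units.val_neg, Units.val_one, zpow_neg_one, eq_inv_iff_mul_eq_one, ← pow_two] at h1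
    have h3 : P ∣ 2 := by rw [← hye]; exact orderOf_dvd_of_pow_eq_one h1
    have h4 := P_ne_two hNC.toGNE
    have h5 := Nat.le_of_dvd (by norm_num) h3
    omega

/-- `A - {1}` generates if `A` does. -/
theorem closure_diff_one {G : Type*} [Group G] {A : Set G} (h : closure A = ⊤) : closure (A \ {1}) = ⊤ := by
  rw [eq_top_iff, ← h, closure_le]
  intro x hx
  by_cases h1 : x = 1
  · rw [h1]; exact one_mem _
  · exact subset_closure ⟨hx, h1⟩

theorem lst_mono' {G : Type u} [Group G] {A B : Set G} (h : A ⊆ B) (hA : Lst A) : Lst B := by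
  obtain ⟨a, h1, h2⟩ := hA
  exact ⟨a, fun i => h (h1 i), h2⟩

/-- Good primes for a larger exponent are good. -/
theorem good_mono {c c' n P : ℕ} (hc : c ≤ c') (hn : n ≠ 0) (h : Good c' n P) : Good c n P := by
  obtain ⟨k, m, h1, h2, h3⟩ := h
  refine ⟨k, m, h1, h2, le_trans ?_ h3⟩
  have hk : 0 < k := Nat.pos_of_ne_zero fun h0 => hn (by rw [h1.eq, h0, zero_mul])
  exact Nat.pow_le_pow_right (by norm_num) (Nat.pow_le_pow_right (by omega) hc)

/-- Two heights. -/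
theorem listingT (hT : SQ6.TwoHS) : ∃ c : ℕ, ∀ (G : Type u) [Group G] [Finite G] (P : ℕ), Good c (Nat.card G) P →
    ∀ y : G, orderOf y = P → (∀ g, g * y * g⁻¹ = y ∨ g * y * g⁻¹ = y⁻¹) →
    ∀ A : Set G, (∀ x ∈ A, x⁻¹ ∈ A) → closure A = ⊤ → (∀ a ∈ A, a ≠ 1 → a * y ≠ y * a) →
      (∃ a ∈ A, ∃ b ∈ A, a ≠ 1 ∧ b ≠ 1 ∧ ∀ s ∈ A, s ≠ 1 → ¬ P ∣ orderOf (s * a⁻¹) ∨ ¬ P ∣ orderOf (s * b⁻¹)) →
        Lst A := by
  obtain ⟨c, hT⟩ := hT
  refine ⟨c, ?_⟩
  intro G _ _ P hn y hy hact A hA hgen hne hab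
  obtain ⟨H, hH, hf, e, N, C, eps, k, hNC, heps, hPb, -⟩ := reduce hn hy hact
  have hA1 : ∀ x ∈ A \ {1}, x⁻¹ ∈ A \ {1} := fun x hx => ⟨hA x hx.1, fun h => hx.2 (inv_eq_one.1 h)⟩
  have hm : ∀ a ∈ A, a ≠ 1 → eps (e a) = -1 := fun a ha h1 =>
    (Int.units_eq_one_or (eps (e a))).resolve_left fun h2 => hne a ha h1 ((heps a).1 h2)
  have h1 : ∀ s t : G, orderOf (e s * (e t)⁻¹) = orderOf (s * t⁻¹) := fun s t => by
    rw [← map_inv, ← map_mul]
    exact orderOf_injective e.toMonoidHom e.injective _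
  refine lst_mono' (Set.sdiff_subset (s := A) (t := {1})) (SQ2.lst_equiv e _ ?_)
  refine hT H N C eps k P (e '' (A \ {1})) hNC ?_ ?_ ?_ ?_ hPb
  · rintro _ ⟨x, hx, rfl⟩
    exact ⟨x⁻¹, hA1 x hx, map_inv e x⟩
  · have h2 := congrArg (Subgroup.map e.toMonoidHom) (closure_diff_one hgen)
    rw [MonoidHom.map_closure, ← MonoidHom.range_eq_map, MonoidHom.range_eq_top.2 e.surjective] at h2
    exact h2
  · rintro _ ⟨x, hx, rfl⟩
    exact hm x hx.1 hx.2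
  · obtain ⟨a, ha, b, hb, ha1, hb1, hab⟩ := hab
    refine ⟨e a, ⟨a, ⟨ha, ha1⟩, rfl⟩, e b, ⟨b, ⟨hb, hb1⟩, rfl⟩, ?_⟩
    rintro _ ⟨s, hs, rfl⟩
    rw [h1, h1]
    exact hab s hs.1 hs.2

/-- An element which inverts an element of order `P` has order prime to `P` (in groups of good order). -/
theorem not_dvd_of_inv {c : ℕ} {G : Type u} [Group G] [Finite G] {P : ℕ} (hn : Good c (Nat.card G) P)
    {y : G} (hy : orderOf y = P) (hact : ∀ g, g * y * g⁻¹ = y ∨ g * y * g⁻¹ = y⁻¹) {x : G} (hx : x * y ≠ y * x) :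
    ¬ P ∣ orderOf x := by
  obtain ⟨H, hH, hf, e, N, C, eps, k, hNC, heps, -⟩ := reduce hn hy hact
  have hP4 := P_ne_two hNC.toGNE
  obtain ⟨-, hodd⟩ := SQ6.H74.part H N C eps k P hNC (by omega)
  have h1 : orderOf (e x) = orderOf x := orderOf_injective e.toMonoidHom e.injective _
  rw [← h1]
  exact hodd _ ((Int.units_eq_one_or (eps (e x))).resolve_left fun h2 => hx ((heps x).1 h2))

/-- At most two generators. -/
theorem listing2 (hM : MainCS) (hT : SQ6.TwoHS) : ∃ c : ℕ, ∀ (G : Type u) [Group G] [Finite G] (P : ℕ),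
    Good c (Nat.card G) P → ∀ y : G, orderOf y = P → (∀ g, g * y * g⁻¹ = y ∨ g * y * g⁻¹ = y⁻¹) →
    ∀ A : Set G, (∀ x ∈ A, x⁻¹ ∈ A) → closure A = ⊤ → (∃ a b : G, A ⊆ {1, a, a⁻¹, b, b⁻¹}) → Lst A := by
  obtain ⟨c₁, h₁⟩ := listingN.{u} hM
  obtain ⟨c₂, h₂⟩ := listingT.{u} hT
  refine ⟨max c₁ c₂, ?_⟩
  intro G _ _ P hn y hy hact A hA hgen ⟨a, b, hab⟩
  have hn₁ := good_mono (le_max_left c₁ c₂) Nat.card_pos.ne' hn
  have hn₂ := good_mono (le_max_right c₁ c₂) Nat.card_pos.ne' hn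
  by_cases hc : ∃ r ∈ A, r ≠ 1 ∧ r * y = y * r
  · exact h₁ G P hn₁ y hy hact A hA hgen hc
  push Not at hc
  -- two letters of the same class
  have hpow : ∀ x ∈ A, x ≠ 1 → ∀ z ∈ A, z ≠ 1 → (z = x ∨ z = x⁻¹ ∨ z⁻¹ = x) → ¬ P ∣ orderOf (z * x⁻¹) := by
    intro x hx hx1 z hz hz1 hzx
    have h3 : ¬ P ∣ orderOf x := not_dvd_of_inv hn hy hact (hc x hx hx1)
    have h4 : ¬ P ∣ orderOf (x⁻¹ ^ 2) := fun h5 =>
      h3 (h5.trans (by rw [← orderOf_inv x]; exact orderOf_pow_dvd 2))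
    rcases hzx with rfl | rfl | h5
    · rw [mul_inv_cancel, orderOf_one]
      exact fun h6 => (hn.prime).one_lt.ne' (Nat.dvd_one.1 h6)
    · rw [← pow_two]
      exact h4
    · have h6 : z = x⁻¹ := by rw [← h5, inv_inv]
      rw [h6, ← pow_two]
      exact h4
  have hcls : ∀ s ∈ A, s ≠ 1 → (s = a ∨ s = a⁻¹) ∨ (s = b ∨ s = b⁻¹) := by
    intro s hs hs1
    have h3 := hab hs
    simp only [Set.mem_insert_iff, Set.mem_singleton_iff] at h3
    tauto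
  have hsame : ∀ t : G, ∀ x ∈ A, x ≠ 1 → ∀ z ∈ A, z ≠ 1 → (x = t ∨ x = t⁻¹) → (z = t ∨ z = t⁻¹) →
      ¬ P ∣ orderOf (z * x⁻¹) := by
    intro t x hx hx1 z hz hz1 h3 h4
    refine hpow x hx hx1 z hz hz1 ?_
    rcases h3 with rfl | rfl <;> rcases h4 with rfl | rfl <;> simp
  -- a letter different from one
  obtain ⟨t, htA, ht1⟩ : ∃ t ∈ A, t ≠ 1 := by
    by_contra hno
    push Not at hno
    have h1 : closure A ≤ ⊥ := by
      rw [closure_le]
      intro x hx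
      exact hno x hx
    rw [hgen] at h1
    have h2 : y ∈ (⊥ : Subgroup G) := h1 (mem_top y)
    rw [mem_bot] at h2
    rw [h2, orderOf_one] at hy
    exact hn.prime.one_lt.ne hy
  refine h₂ G P hn₂ y hy hact A hA hgen (fun r hr hr1 => hc r hr hr1) ?_
  by_cases hqa : ∃ x ∈ A, x ≠ 1 ∧ (x = a ∨ x = a⁻¹)
  · obtain ⟨x, hx, hx1, hxa⟩ := hqa
    by_cases hqb : ∃ x ∈ A, x ≠ 1 ∧ (x = b ∨ x = b⁻¹)
    · obtain ⟨z, hz, hz1, hzb⟩ := hqb
      refine ⟨x, hx, z, hz, hx1, hz1, fun s hs hs1 => ?_⟩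
      rcases hcls s hs hs1 with h3 | h3
      · exact Or.inl (hsame a x hx hx1 s hs hs1 hxa h3)
      · exact Or.inr (hsame b z hz hz1 s hs hs1 hzb h3)
    · refine ⟨x, hx, x, hx, hx1, hx1, fun s hs hs1 => Or.inl ?_⟩
      rcases hcls s hs hs1 with h3 | h3
      · exact hsame a x hx hx1 s hs hs1 hxa h3
      · exact (hqb ⟨s, hs, hs1, h3⟩).elim
  · refine ⟨t, htA, t, htA, ht1, ht1, fun s hs hs1 => Or.inl ?_⟩
    have h4 : ∀ r ∈ A, r ≠ 1 → (r = b ∨ r = b⁻¹) := fun r hr hr1 =>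
      (hcls r hr hr1).resolve_left fun h5 => hqa ⟨r, hr, hr1, h5⟩
    exact hsame b t htA ht1 s hs hs1 (h4 t htA ht1) (h4 s hs hs1)

end Pool.Agent.Lib.MP_688fd0_co.SQ4
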